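import Mathlib
import Pool.Agent.W695.KH.Defs

set_option autoImplicit false

namespace Pool.Agent.W880.KH

open MeasureTheory Set Filter Topology Pool.Agent.W695.KH
open scoped ENNReal InnerProductSpace Pointwise

section

variable {κ : Type} [Fintype κ]

theorem integrable_exp (U : Eu κ → ℝ) (h1 : EU U (fun _ => 1) = 1) :
    Integrable fun x => Real.exp (-U x) := by
  by_contra h
  have h2 : EU U (fun _ => 1) = 0 := by
    change ∫ x, 1 * Real.exp (-U x) = 0
    apply integral_undef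
    simpa using h
  rw [h1] at h2
  exact one_ne_zero h2

theorem integrable_mul (U : Eu κ → ℝ) (h1 : EU U (fun _ => 1) = 1) (v : Eu κ → ℝ)
    (hv : Continuous v) (B : ℝ) (hB : ∀ x, |v x| ≤ B) :
    Integrable fun x => v x * Real.exp (-U x) := by
  apply (integrable_exp U h1).bdd_mul (c := B) hv.aestronglyMeasurable
  exact Eventually.of_forall fun x => by
    rw [Real.norm_eq_abs]
    exact hB x

theorem EU_le (U : Eu κ → ℝ) (h1 : EU U (fun _ => 1) = 1) (v : Eu κ → ℝ)
    (_hv : Continuous v) (B : ℝ) (hB : ∀ x, |v x| ≤ B) : |EU U v| ≤ B := by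
  have h2 : |EU U v| ≤ ∫ x, B * Real.exp (-U x) := by
    have h3 := norm_integral_le_of_norm_le ((integrable_exp U h1).const_mul B)
      (f := fun x => v x * Real.exp (-U x)) (Eventually.of_forall fun x => by
        rw [norm_mul, Real.norm_eq_abs, Real.norm_eq_abs, Real.abs_exp]
        exact mul_le_mul_of_nonneg_right (hB x) (Real.exp_pos _).le)
    exact h3
  rw [integral_const_mul] at h2
  have h4 : ∫ x, Real.exp (-U x) = 1 := by
    rw [← h1]
    change _ = ∫ x, 1 * Real.exp (-U x)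
    simp only [one_mul]
  rw [h4, mul_one] at h2
  exact h2

theorem EU_sub_const (U : Eu κ → ℝ) (h1 : EU U (fun _ => 1) = 1) (v : Eu κ → ℝ)
    (hv : Continuous v) (B : ℝ) (hB : ∀ x, |v x| ≤ B) (m : ℝ) :
    EU U (fun x => v x - m) = EU U v - m := by
  have h4 : ∫ x, Real.exp (-U x) = 1 := by
    rw [← h1]
    change _ = ∫ x, 1 * Real.exp (-U x)
    simp only [one_mul]
  change ∫ x, (v x - m) * Real.exp (-U x) = (∫ x, v x * Real.exp (-U x)) - m
  have h5 : (fun x => (v x - m) * Real.exp (-U x)) =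
      fun x => v x * Real.exp (-U x) - m * Real.exp (-U x) := by
    funext x
    ring
  rw [h5, integral_sub (integrable_mul U h1 v hv B hB) ((integrable_exp U h1).const_mul m),
    integral_const_mul, h4, mul_one]

theorem EU_sub_sq (U : Eu κ → ℝ) (h1 : EU U (fun _ => 1) = 1) (v : Eu κ → ℝ)
    (hv : Continuous v) (B : ℝ) (hB : ∀ x, |v x| ≤ B) (m : ℝ) :
    EU U (fun x => (v x - m) ^ 2) = EU U (fun x => v x ^ 2) - 2 * m * EU U v + m ^ 2 := by
  have h4 : ∫ x, Real.exp (-U x) = 1 := by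
    rw [← h1]
    change _ = ∫ x, 1 * Real.exp (-U x)
    simp only [one_mul]
  have hB0 : 0 ≤ B := (abs_nonneg _).trans (hB 0)
  have hi2 := integrable_mul U h1 (fun x => v x ^ 2) (hv.pow 2) (B ^ 2) (fun x => by
    rw [abs_pow]
    exact pow_le_pow_left₀ (abs_nonneg _) (hB x) 2)
  have hi1 := (integrable_mul U h1 v hv B hB).const_mul (2 * m)
  have hi0 := (integrable_exp U h1).const_mul (m ^ 2)
  change ∫ x, (v x - m) ^ 2 * Real.exp (-U x) = (∫ x, v x ^ 2 * Real.exp (-U x)) -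
    2 * m * (∫ x, v x * Real.exp (-U x)) + m ^ 2
  have h5 : (fun x => (v x - m) ^ 2 * Real.exp (-U x)) =
      fun x => (v x ^ 2 * Real.exp (-U x) - 2 * m * (v x * Real.exp (-U x))) +
        m ^ 2 * Real.exp (-U x) := by
    funext x
    ring
  have h6 : ∫ x, ((v x ^ 2 * Real.exp (-U x) - 2 * m * (v x * Real.exp (-U x))) +
      m ^ 2 * Real.exp (-U x)) = (∫ x, (v x ^ 2 * Real.exp (-U x) -
        2 * m * (v x * Real.exp (-U x)))) + ∫ x, m ^ 2 * Real.exp (-U x) :=
    integral_add (hi2.sub hi1) hi0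
  have h7 : ∫ x, (v x ^ 2 * Real.exp (-U x) - 2 * m * (v x * Real.exp (-U x))) =
      (∫ x, v x ^ 2 * Real.exp (-U x)) - ∫ x, 2 * m * (v x * Real.exp (-U x)) :=
    integral_sub hi2 hi1
  rw [h5, h6, h7, integral_const_mul, integral_const_mul, h4, mul_one]

end

theorem t_body (hp : S_proj) (hl : S_lim) (hc : S_core) : S_body := by
  intro κ _ D hD hconv hvol δ c hδ hc0 hW f L M hf hfb hV
  have hne : D.Nonempty := by
    by_contra h
    rw [not_nonempty_iff_eq_empty] at h
    rw [h] at hvol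
    simp at hvol
  have hcont : Continuous f := hf.diff.continuous
  have hL : 0 ≤ L := (norm_nonneg _).trans (hf.grad 0)
  have hgc : Continuous fun x => ‖fderiv ℝ f x‖ :=
    (hf.diff.continuous_fderiv one_ne_zero).norm
  have ht1 := hl κ D hD hconv hvol f 1 hcont (fun x => by
    have := hf.bdd x
    nlinarith [sq_nonneg ‖x‖])
  have ht2 := hl κ D hD hconv hvol (fun x => f x ^ 2) 1 (hcont.pow 2) (fun x => by
    have h1 := hf.bdd x
    have h2 : |f x ^ 2| ≤ 1 := by
      rw [abs_pow]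
      exact pow_le_one₀ (abs_nonneg _) h1
    nlinarith [sq_nonneg ‖x‖])
  have ht3 := hl κ D hD hconv hvol (fun x => ‖fderiv ℝ f x‖) L hgc (fun x => by
    have h1 := hf.grad x
    rw [abs_norm]
    nlinarith [sq_nonneg ‖x‖, mul_nonneg hL (sq_nonneg ‖x‖)])
  have hv : Tendsto (fun A : ℝ => EU (Uu D A) (fun x => f x ^ 2) - EU (Uu D A) f ^ 2) atTop
      (𝓝 (VV D f)) := ht2.sub (ht1.pow 2)
  have hr : Tendsto (fun A : ℝ => 4 / c * (EU (Uu D A) fun x => ‖fderiv ℝ f x‖) ^ 2) atTop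
      (𝓝 (4 / c * (EV D fun x => ‖fderiv ℝ f x‖) ^ 2)) := (ht3.pow 2).const_mul _
  refine le_of_tendsto_of_tendsto hv hr ?_
  filter_upwards [hW, hv.eventually (lt_mem_nhds hV), eventually_gt_atTop 0] with A hA1 hA2 hA3
  obtain ⟨⟨b, hb⟩, hA4, _⟩ := hp κ D hD hconv hne A hA3
  obtain ⟨m, hm⟩ : ∃ m, m = EU (Uu D A) f := ⟨_, rfl⟩
  have hmb : |m| ≤ 1 / 2 := hm ▸ EU_le (Uu D A) hA4 f hcont (1 / 2) hfb
  have hfd : ∀ x, fderiv ℝ (fun y => f y - m) x = fderiv ℝ f x := by
    intro x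
    rw [fderiv_sub_const]
  have hS : Sm (fun x => f x - m) L M := by
    refine ⟨?_, hf.diff.sub contDiff_const, ?_, ?_⟩
    · intro x
      have h1 := hfb x
      have h2 : |f x - m| ≤ |f x| + |m| := abs_sub _ _
      linarith
    · intro x
      rw [hfd]
      exact hf.grad x
    · intro x y
      rw [hfd, hfd]
      exact hf.lip x y
  have h1 : EU (Uu D A) (fun x => f x - m) = 0 := by
    rw [EU_sub_const (Uu D A) hA4 f hcont (1 / 2) hfb m, hm, sub_self]
  have h2 : EU (Uu D A) (fun x => (f x - m) ^ 2) =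
      EU (Uu D A) (fun x => f x ^ 2) - EU (Uu D A) f ^ 2 := by
    rw [EU_sub_sq (Uu D A) hA4 f hcont (1 / 2) hfb m, ← hm]
    ring
  have h3 := hc κ (Uu D A) b A hb hA4 δ c hδ hc0 hA1 (fun x => f x - m) L M hS h1
    (by rw [h2]; exact hA2)
  rw [h2] at h3
  simp only [hfd] at h3
  exact h3

end Pool.Agent.W880.KH
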