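import Mathlib
import Pool.Agent.W695.KH.Defs

set_option autoImplicit false

namespace Pool.Agent.W880.KH

open MeasureTheory Set Filter Topology Pool.Agent.W695.KH

theorem t_oned : S_oned := by
  refine ⟨16 * Real.pi, by positivity, ?_⟩
  intro φ hmeas h0 hev hlc hR
  obtain ⟨R, hR⟩ := hR
  have hle : ∀ x r : ℝ, 0 < r → |x| ≤ r → φ r ≤ φ x := by
    intro x r hr hx
    obtain ⟨h1, h2⟩ := abs_le.1 hx
    rcases eq_or_lt_of_le h2 with h2 | h2
    · rw [h2]
    rcases eq_or_lt_of_le h1 with h1 | h1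
    · rw [← h1, hev]
    have ht0 : 0 < (r - x) / (2 * r) := div_pos (by linarith) (by linarith)
    have ht1 : (r - x) / (2 * r) < 1 := by
      rw [div_lt_one (by linarith)]
      linarith
    have h3 := hlc r (-r) ((r - x) / (2 * r)) ht0 ht1
    rw [hev r, ← Real.rpow_add' (h0 r) (by norm_num)] at h3
    have h4 : (1 - (r - x) / (2 * r) + (r - x) / (2 * r)) = 1 := by ring
    rw [h4, Real.rpow_one] at h3
    have h5 : (1 - (r - x) / (2 * r)) * r + (r - x) / (2 * r) * -r = x := by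
      field_simp
      ring
    rw [h5] at h3
    exact h3
  have hmax : ∀ r, φ r ≤ φ 0 := by
    intro r
    rcases lt_trichotomy r 0 with h | h | h
    · rw [← hev r]
      exact hle 0 (-r) (by linarith) (by rw [abs_zero]; linarith)
    · rw [h]
    · exact hle 0 r h (by rw [abs_zero]; linarith)
  have hI1 : Integrable φ := by
    refine Integrable.mono' (g := (Icc (-|R|) |R|).indicator fun _ => φ 0) ?_
      hmeas.aestronglyMeasurable ?_
    · rw [integrable_indicator_iff measurableSet_Icc]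
      exact integrableOn_const (by simp)
    · refine Eventually.of_forall fun r => ?_
      rw [Real.norm_of_nonneg (h0 r)]
      by_cases h : r ∈ Icc (-|R|) |R|
      · rw [indicator_of_mem h]
        exact hmax r
      · rw [indicator_of_notMem h]
        refine le_of_eq (hR r ?_)
        by_contra hc
        push Not at hc
        exact h (abs_le.1 (hc.trans (le_abs_self R)))
  have hI2 : Integrable fun r => r ^ 2 * φ r := by
    refine Integrable.mono' (g := (Icc (-|R|) |R|).indicator fun _ => |R| ^ 2 * φ 0) ?_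
      ((measurable_id.pow_const 2).mul hmeas).aestronglyMeasurable ?_
    · rw [integrable_indicator_iff measurableSet_Icc]
      exact integrableOn_const (by simp)
    · refine Eventually.of_forall fun r => ?_
      change ‖r ^ 2 * φ r‖ ≤ _
      rw [Real.norm_of_nonneg (mul_nonneg (sq_nonneg r) (h0 r))]
      by_cases h : r ∈ Icc (-|R|) |R|
      · rw [indicator_of_mem h]
        apply mul_le_mul _ (hmax r) (h0 r) (by positivity)
        rw [← sq_abs r]
        have := abs_le.2 h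
        exact pow_le_pow_left₀ (abs_nonneg r) this 2
      · rw [indicator_of_notMem h]
        have : φ r = 0 := by
          apply hR r
          by_contra hc
          push Not at hc
          exact h (abs_le.1 (hc.trans (le_abs_self R)))
        rw [this, mul_zero]
  refine ⟨hmax, hI1, hI2, ?_⟩
  obtain ⟨I, hI⟩ : ∃ I, I = ∫ r, φ r := ⟨_, rfl⟩
  rw [← hI]
  have hI0 : 0 ≤ I := hI ▸ integral_nonneg h0
  have hA1 : ∀ r : ℝ, 0 < r → 2 * r * φ r ≤ I := by
    intro r hr
    have h1 : ∫ x in Icc (-r) r, φ r ≤ ∫ x in Icc (-r) r, φ x := by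
      apply setIntegral_mono_on (integrableOn_const (by simp)) hI1.integrableOn measurableSet_Icc
      intro x hx
      exact hle x r hr (abs_le.2 hx)
    have h2 : ∫ x in Icc (-r) r, φ x ≤ ∫ x, φ x :=
      setIntegral_le_integral hI1 (Eventually.of_forall h0)
    rw [setIntegral_const, smul_eq_mul, Real.volume_real_Icc_of_le (by linarith)] at h1
    have h3 : r - -r = 2 * r := by ring
    rw [h3] at h1
    rw [hI]
    exact h1.trans h2
  have hA2 : ∀ s : ℝ, φ 0 ^ 3 * φ (4 * s) ≤ φ s ^ 4 := by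
    intro s
    have h1 := hlc 0 (4 * s) (1 / 4) (by norm_num) (by norm_num)
    have h2 : (1 - 1 / 4) * 0 + 1 / 4 * (4 * s) = s := by ring
    rw [h2] at h1
    have h3 := pow_le_pow_left₀ (mul_nonneg (Real.rpow_nonneg (h0 0) _)
      (Real.rpow_nonneg (h0 _) _)) h1 4
    rw [mul_pow, ← Real.rpow_natCast (φ 0 ^ (1 - 1 / 4 : ℝ)) 4,
      ← Real.rpow_natCast (φ (4 * s) ^ (1 / 4 : ℝ)) 4, ← Real.rpow_mul (h0 0),
      ← Real.rpow_mul (h0 _)] at h3
    have h4 : (1 - 1 / 4 : ℝ) * ((4 : ℕ) : ℝ) = ((3 : ℕ) : ℝ) := by norm_num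
    have h5 : (1 / 4 : ℝ) * ((4 : ℕ) : ℝ) = 1 := by norm_num
    rw [h4, h5, Real.rpow_natCast, Real.rpow_one] at h3
    exact h3
  have hA3 : ∀ r : ℝ, 0 < r → φ 0 ^ 3 * (r ^ 2) ^ 2 * φ r ≤ 16 * I ^ 4 := by
    intro r hr
    have h1 := hA2 (r / 4)
    have h2 : 4 * (r / 4) = r := by ring
    rw [h2] at h1
    have h3 := hA1 (r / 4) (by linarith)
    have h4 : (r * φ (r / 4)) ^ 4 ≤ (2 * I) ^ 4 := by
      apply pow_le_pow_left₀ (mul_nonneg hr.le (h0 _))
      linarith
    have h5 : r ^ 4 * (φ 0 ^ 3 * φ r) ≤ r ^ 4 * φ (r / 4) ^ 4 :=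
      mul_le_mul_of_nonneg_left h1 (by positivity)
    calc φ 0 ^ 3 * (r ^ 2) ^ 2 * φ r = r ^ 4 * (φ 0 ^ 3 * φ r) := by ring
      _ ≤ r ^ 4 * φ (r / 4) ^ 4 := h5
      _ = (r * φ (r / 4)) ^ 4 := by ring
      _ ≤ (2 * I) ^ 4 := h4
      _ = 16 * I ^ 4 := by ring
  have hA : ∀ r : ℝ, φ 0 ^ 3 * (r ^ 2) ^ 2 * φ r ≤ 16 * I ^ 4 := by
    intro r
    rcases lt_trichotomy r 0 with h | h | h
    · have := hA3 (-r) (by linarith)
      rw [hev, neg_sq] at this
      exact this
    · rw [h]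
      have : 0 ≤ 16 * I ^ 4 := by positivity
      simpa using this
    · exact hA3 r h
  rcases eq_or_lt_of_le (h0 0) with hm | hm
  · rw [← hm]
    have : 0 ≤ 16 * Real.pi * I ^ 3 := by positivity
    simpa using this
  rcases eq_or_lt_of_le hI0 with hI' | hI'
  · have h1 : (fun r : ℝ => r ^ 2 * φ r) = fun _ => 0 := by
      funext r
      have h2 := hA r
      rw [← hI'] at h2
      have h3 : φ 0 ^ 3 * (r ^ 2) ^ 2 * φ r = φ 0 ^ 3 * (r ^ 2 * (r ^ 2 * φ r)) := by ring
      rw [h3] at h2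
      have h4 : 0 ≤ r ^ 2 * φ r := mul_nonneg (sq_nonneg r) (h0 r)
      have h5 : r ^ 2 * (r ^ 2 * φ r) ≤ 0 := by
        by_contra hc
        push Not at hc
        have : 0 < φ 0 ^ 3 * (r ^ 2 * (r ^ 2 * φ r)) := mul_pos (by positivity) hc
        have h6 : (16 : ℝ) * 0 ^ 4 = 0 := by norm_num
        rw [h6] at h2
        linarith
      by_cases hr : r = 0
      · rw [hr]
        ring
      · have h6 : 0 < r ^ 2 := by positivity
        have h7 : r ^ 2 * φ r ≤ 0 := by
          by_contra hc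
          push Not at hc
          have := mul_pos h6 hc
          linarith
        exact le_antisymm h7 h4
    rw [h1, integral_zero, mul_zero]
    positivity
  · obtain ⟨T, hT⟩ : ∃ T, T = 2 * I / φ 0 := ⟨_, rfl⟩
    have hT0 : 0 < T := by
      rw [hT]
      positivity
    have hmT : φ 0 * T = 2 * I := by
      rw [hT]
      field_simp
    have hpt : ∀ r : ℝ, r ^ 2 * φ r ≤ 2 * φ 0 * T ^ 2 * (1 + (r / T) ^ 2)⁻¹ := by
      intro r
      have h1 : (r ^ 2) ^ 2 * φ r ≤ φ 0 * T ^ 4 := by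
        have h2 := hA r
        have h3 : 16 * I ^ 4 = φ 0 ^ 3 * (φ 0 * T ^ 4) := by
          have : 16 * I ^ 4 = (2 * I) ^ 4 := by ring
          rw [this, ← hmT]
          ring
        rw [h3, mul_assoc] at h2
        exact le_of_mul_le_mul_left h2 (by positivity)
      have h4 : r ^ 2 * φ r ≤ φ 0 * T ^ 2 := by
        have h5 : (r ^ 2 * φ r) ^ 2 ≤ (φ 0 * T ^ 2) ^ 2 := by
          calc (r ^ 2 * φ r) ^ 2 = (r ^ 2) ^ 2 * φ r * φ r := by ring
            _ ≤ φ 0 * T ^ 4 * φ 0 := mul_le_mul h1 (hmax r) (h0 r) (by positivity)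
            _ = (φ 0 * T ^ 2) ^ 2 := by ring
        exact (pow_le_pow_iff_left₀ (mul_nonneg (sq_nonneg r) (h0 r)) (by positivity)
          two_ne_zero).1 h5
      have h6 : 2 * φ 0 * T ^ 2 * (1 + (r / T) ^ 2)⁻¹ = 2 * φ 0 * T ^ 4 / (T ^ 2 + r ^ 2) := by
        have : T ^ 2 + r ^ 2 ≠ 0 := by positivity
        have : 1 + (r / T) ^ 2 ≠ 0 := by positivity
        field_simp
      rw [h6, le_div_iff₀ (by positivity)]
      have h7 : r ^ 2 * φ r * T ^ 2 ≤ φ 0 * T ^ 2 * T ^ 2 :=
        mul_le_mul_of_nonneg_right h4 (by positivity)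
      calc r ^ 2 * φ r * (T ^ 2 + r ^ 2) = r ^ 2 * φ r * T ^ 2 + (r ^ 2) ^ 2 * φ r := by ring
        _ ≤ φ 0 * T ^ 2 * T ^ 2 + φ 0 * T ^ 4 := add_le_add h7 h1
        _ = 2 * φ 0 * T ^ 4 := by ring
    have hint : Integrable fun r : ℝ => 2 * φ 0 * T ^ 2 * (1 + (r / T) ^ 2)⁻¹ := by
      apply Integrable.const_mul
      exact (integrable_inv_one_add_sq).comp_div hT0.ne'
    have h1 := integral_mono hI2 hint hpt
    rw [integral_const_mul, Measure.integral_comp_div (fun x : ℝ => (1 + x ^ 2)⁻¹) T,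
      integral_univ_inv_one_add_sq, smul_eq_mul, abs_of_pos hT0] at h1
    calc φ 0 ^ 2 * ∫ r, r ^ 2 * φ r ≤ φ 0 ^ 2 * (2 * φ 0 * T ^ 2 * (T * Real.pi)) :=
          mul_le_mul_of_nonneg_left h1 (by positivity)
      _ = 2 * Real.pi * (φ 0 * T) ^ 3 := by ring
      _ = 16 * Real.pi * I ^ 3 := by
        rw [hmT]
        ring

end Pool.Agent.W880.KH
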